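import Mathlib

set_option autoImplicit false

/-!
# Distinct distances between two curves: an upper bound `n ^ (2 - 1 / (3 log log n))`

The points `(√(i/K), i/K)` lie on the parabola `y = x²` and the points `(0, j/K)` lie on the
`y`-axis. The squared distance between them is `(K i + (i - j)²) / K²`, and `K i + (i - j)²` is a
square modulo `K`. If `K ≤ n` is a product of many small primes, few residues are squares.
-/

namespace Pool.Agent.Results.MP_df1788_co.FewerDistances

/-- The Euclidean plane. -/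
abbrev Pt : Type := EuclideanSpace ℝ (Fin 2)

/-- `C` is a plane algebraic curve of degree at most `k`: the zero set of a nonzero polynomial of
degree at most `k`. -/
def IsCurve (k : ℕ) (C : Set Pt) : Prop :=
  ∃ f : MvPolynomial (Fin 2) ℝ, f ≠ 0 ∧ f.totalDegree ≤ k ∧
    C = {x | MvPolynomial.eval (fun i => x i) f = 0}

/-- The line `a x + b y = c`. -/
def line (a b c : ℝ) : Set Pt := {x | a * x 0 + b * x 1 = c}

/-- `(C₁, C₂)` is admissible: there are no lines `ℓ₁ ⊆ C₁`, `ℓ₂ ⊆ C₂` that are parallel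
(or equal) or orthogonal, and no circles `γ₁ ⊆ C₁`, `γ₂ ⊆ C₂` with the same centre. -/
def Admissible (C₁ C₂ : Set Pt) : Prop :=
  (∀ a₁ b₁ c₁ a₂ b₂ c₂ : ℝ, (a₁, b₁) ≠ (0, 0) → (a₂, b₂) ≠ (0, 0) →
    line a₁ b₁ c₁ ⊆ C₁ → line a₂ b₂ c₂ ⊆ C₂ →
      a₁ * b₂ ≠ a₂ * b₁ ∧ a₁ * a₂ + b₁ * b₂ ≠ 0) ∧
  ∀ (p : Pt) (r₁ r₂ : ℝ), 0 < r₁ → 0 < r₂ →
    ¬ (Metric.sphere p r₁ ⊆ C₁ ∧ Metric.sphere p r₂ ⊆ C₂)

open Classical in
/-- The number of distinct distances between a point of `P₁` and a point of `P₂`. -/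
noncomputable def numDist (P₁ P₂ : Finset Pt) : ℕ :=
  ((P₁ ×ˢ P₂).image (fun q => dist q.1 q.2)).card

/-! ### Squares modulo `K` -/

/-- the number of squares modulo `K` -/
noncomputable def sq (K : ℕ) : ℕ := Nat.card {x : ZMod K // IsSquare x}

lemma sq_mul {m n : ℕ} [NeZero m] [NeZero n] (h : m.Coprime n) : sq (m * n) ≤ sq m * sq n := by
  unfold sq
  rw [← Nat.card_prod]
  have hsq : ∀ x : ZMod (m * n), IsSquare x → IsSquare (ZMod.chineseRemainder h x).1 ∧
      IsSquare (ZMod.chineseRemainder h x).2 := by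
    rintro x ⟨y, rfl⟩
    rw [map_mul]
    exact ⟨⟨_, rfl⟩, ⟨_, rfl⟩⟩
  apply Nat.card_le_card_of_injective
    (fun x : {x : ZMod (m * n) // IsSquare x} =>
      ((⟨(ZMod.chineseRemainder h x.1).1, (hsq x.1 x.2).1⟩,
        ⟨(ZMod.chineseRemainder h x.1).2, (hsq x.1 x.2).2⟩) :
        {x : ZMod m // IsSquare x} × {x : ZMod n // IsSquare x}))
  intro x y hxy
  simp only [Prod.mk.injEq, Subtype.mk.injEq] at hxy
  exact Subtype.ext ((ZMod.chineseRemainder h).injective (Prod.ext hxy.1 hxy.2))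

lemma sq_prime {p : ℕ} (hp : p.Prime) (hp2 : p ≠ 2) : sq p ≤ (p + 1) / 2 := by
  unfold sq
  have := Fact.mk hp
  have hodd : p % 2 = 1 := (hp.eq_two_or_odd).resolve_left hp2
  conv_rhs => rw [← Nat.card_fin ((p + 1) / 2)]
  apply Nat.card_le_card_of_surjective
    (fun k : Fin ((p + 1) / 2) => (⟨((k : ℕ) : ZMod p) * ((k : ℕ) : ZMod p), ⟨_, rfl⟩⟩ :
      {x : ZMod p // IsSquare x}))
  rintro ⟨x, y, rfl⟩
  have hy : (y.val : ZMod p) = y := ZMod.natCast_zmod_val y
  have hlt := y.val_lt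
  rcases Nat.lt_or_ge y.val ((p + 1) / 2) with h | h
  · exact ⟨⟨y.val, h⟩, by simp [hy]⟩
  · refine ⟨⟨p - y.val, by omega⟩, ?_⟩
    have : ((p - y.val : ℕ) : ZMod p) = - y := by
      rw [Nat.cast_sub hlt.le, hy]; simp
    apply Subtype.ext
    change ((p - y.val : ℕ) : ZMod p) * ((p - y.val : ℕ) : ZMod p) = y * y
    rw [this]
    ring

/-- the number of squares modulo a product of distinct odd primes -/
lemma sq_prod (S : Finset ℕ) (hS : ∀ p ∈ S, p.Prime ∧ p ≠ 2) :
    sq (∏ p ∈ S, p) ≤ ∏ p ∈ S, (p + 1) / 2 := by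
  classical
  induction S using Finset.induction_on with
  | empty =>
    simp only [Finset.prod_empty]
    unfold sq
    have : Nat.card {x : ZMod 1 // IsSquare x} ≤ Nat.card (ZMod 1) :=
      Nat.card_le_card_of_injective _ Subtype.val_injective
    simpa using this
  | insert q S hq ih =>
    rw [Finset.prod_insert hq, Finset.prod_insert hq]
    have hqp := hS q (Finset.mem_insert_self _ _)
    have hS' : ∀ p ∈ S, p.Prime ∧ p ≠ 2 := fun p hp => hS p (Finset.mem_insert_of_mem hp)
    have : NeZero q := ⟨hqp.1.ne_zero⟩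
    have : NeZero (∏ p ∈ S, p) :=
      ⟨Finset.prod_ne_zero_iff.2 (fun p hp => (hS' p hp).1.ne_zero)⟩
    have hc : q.Coprime (∏ p ∈ S, p) := by
      apply Nat.Coprime.prod_right
      intro p hp
      rw [Nat.coprime_primes hqp.1 (hS' p hp).1]
      rintro rfl
      exact hq hp
    calc sq (q * ∏ p ∈ S, p) ≤ sq q * sq (∏ p ∈ S, p) := sq_mul hc
      _ ≤ (q + 1) / 2 * ∏ p ∈ S, (p + 1) / 2 := Nat.mul_le_mul (sq_prime hqp.1 hqp.2) (ih hS')

/-! ### The values of `K i + (i - j)²` -/

/-- the set of values of `K i + (i - j)²` for `1 ≤ i, j ≤ n` -/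
def vals (K n : ℕ) : Finset ℕ :=
  (Finset.Icc 1 n ×ˢ Finset.Icc 1 n).image
    (fun q => K * q.1 + (((q.1 : ℤ) - q.2).natAbs) ^ 2)

open Classical in
lemma card_vals_le (K n : ℕ) [NeZero K] :
    (vals K n).card ≤ ((K * n + n ^ 2) / K + 1) * sq K := by
  have hK : 0 < K := Nat.pos_of_ne_zero (NeZero.ne K)
  have h1 : sq K = (Finset.univ.filter (fun x : ZMod K => IsSquare x)).card := by
    unfold sq
    rw [Nat.card_eq_fintype_card, Fintype.card_subtype]
  rw [h1, ← Finset.card_range ((K * n + n ^ 2) / K + 1), ← Finset.card_product]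
  apply Finset.card_le_card_of_injOn (fun v => (v / K, (v : ZMod K)))
  · intro v hv
    simp only [vals, Finset.coe_image, Set.mem_image, Finset.mem_coe, Finset.mem_product,
      Finset.mem_Icc] at hv
    obtain ⟨⟨i, j⟩, ⟨⟨hi1, hi2⟩, hj1, hj2⟩, rfl⟩ := hv
    simp only [Finset.coe_product, Set.mem_prod, Finset.mem_coe, Finset.mem_range,
      Finset.mem_filter, Finset.mem_univ, true_and]
    constructor
    · apply Nat.lt_succ_of_le
      apply Nat.div_le_div_right
      have h2 : ((i : ℤ) - j).natAbs ≤ n := by omega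
      exact Nat.add_le_add (Nat.mul_le_mul_left _ hi2) (Nat.pow_le_pow_left h2 2)
    · refine ⟨((((i : ℤ) - j).natAbs : ℕ) : ZMod K), ?_⟩
      push_cast
      rw [CharP.cast_eq_zero]
      ring
  · intro v _ w _ h
    simp only [Prod.mk.injEq] at h
    have hm : v % K = w % K := (ZMod.natCast_eq_natCast_iff v w K).1 h.2
    calc v = K * (v / K) + v % K := (Nat.div_add_mod v K).symm
      _ = K * (w / K) + w % K := by rw [h.1, hm]
      _ = w := Nat.div_add_mod w K

/-! ### The modulus -/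

/-- the odd primes up to `y` -/
def oddPrimes (y : ℕ) : Finset ℕ := (Finset.Icc 1 y).filter (fun p => p.Prime ∧ p ≠ 2)

/-- the product of the odd primes up to `y` -/
def modulus (y : ℕ) : ℕ := ∏ p ∈ oddPrimes y, p

lemma mem_oddPrimes {y p : ℕ} (h : p ∈ oddPrimes y) : p.Prime ∧ p ≠ 2 :=
  (Finset.mem_filter.1 h).2

lemma modulus_pos (y : ℕ) : 0 < modulus y :=
  Finset.prod_pos (fun _ hp => (mem_oddPrimes hp).1.pos)

lemma modulus_le (y : ℕ) : modulus y ≤ 4 ^ y := by
  refine le_trans ?_ (primorial_le_four_pow y)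
  unfold modulus primorial
  apply Finset.prod_le_prod_of_subset_of_one_le'
  · intro p hp
    have h1 := Finset.mem_filter.1 hp
    have h2 := Finset.mem_Icc.1 h1.1
    simp only [Finset.mem_filter, Finset.mem_range]
    exact ⟨by omega, h1.2.1⟩
  · intro p hp _
    exact (Finset.mem_filter.1 hp).2.one_lt.le

lemma card_oddPrimes (y : ℕ) : Nat.primeCounting y ≤ (oddPrimes y).card + 1 := by
  rw [← Nat.primesLE_card_eq_primeCounting]
  have h : Nat.primesLE y ⊆ insert 2 (oddPrimes y) := by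
    intro p hp
    rw [Nat.mem_primesLE] at hp
    rw [Finset.mem_insert]
    by_cases h2 : p = 2
    · exact Or.inl h2
    · right
      rw [oddPrimes, Finset.mem_filter, Finset.mem_Icc]
      exact ⟨⟨hp.2.one_lt.le, hp.1⟩, hp.2, h2⟩
  exact (Finset.card_le_card h).trans (Finset.card_insert_le _ _)

lemma prod_one_add_inv (y : ℕ) :
    ∏ p ∈ Finset.Icc 1 y, (1 + 1 / (p : ℝ)) = y + 1 := by
  induction y with
  | zero => simp
  | succ n ih =>
    rw [Finset.prod_Icc_succ_top (by omega), ih]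
    push_cast
    field_simp

lemma prod_half_le (y : ℕ) :
    ((∏ p ∈ oddPrimes y, (p + 1) / 2 : ℕ) : ℝ) ≤
      (modulus y : ℝ) * ((y : ℝ) + 1) * (1 / 2) ^ (oddPrimes y).card := by
  have h1 : ((∏ p ∈ oddPrimes y, (p + 1) / 2 : ℕ) : ℝ) ≤
      ∏ p ∈ oddPrimes y, ((p : ℝ) * (1 + 1 / (p : ℝ)) * (1 / 2)) := by
    push_cast
    apply Finset.prod_le_prod
    · intro p _
      positivity
    · intro p hp
      have hp0 : (0 : ℝ) < p := by exact_mod_cast (mem_oddPrimes hp).1.pos
      calc (((p + 1) / 2 : ℕ) : ℝ) ≤ ((p + 1 : ℕ) : ℝ) / 2 := Nat.cast_div_le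
        _ = (p : ℝ) * (1 + 1 / (p : ℝ)) * (1 / 2) := by
          push_cast
          field_simp
  refine h1.trans ?_
  rw [Finset.prod_mul_distrib, Finset.prod_mul_distrib, Finset.prod_const, modulus, Nat.cast_prod]
  apply mul_le_mul_of_nonneg_right _ (by positivity)
  apply mul_le_mul_of_nonneg_left _ (by positivity)
  rw [← prod_one_add_inv y]
  apply Finset.prod_le_prod_of_subset_of_one_le
  · exact Finset.filter_subset _ _
  · intro p _
    positivity
  · intro p _ _
    have : (0 : ℝ) ≤ 1 / (p : ℝ) := by positivity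
    linarith

/-- the number of values, for `4 ^ y ≤ n` -/
lemma card_vals_modulus (y n : ℕ) (h : 4 ^ y ≤ n) :
    ((vals (modulus y) n).card : ℝ) ≤
      3 * (n : ℝ) ^ 2 * ((y : ℝ) + 1) * (1 / 2) ^ (oddPrimes y).card := by
  have hK := modulus_pos y
  have : NeZero (modulus y) := ⟨hK.ne'⟩
  have hKn : modulus y ≤ n := (modulus_le y).trans h
  have h1 := card_vals_le (modulus y) n
  have h2 : sq (modulus y) ≤ ∏ p ∈ oddPrimes y, (p + 1) / 2 :=
    sq_prod _ (fun p hp => mem_oddPrimes hp)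
  have h3 := prod_half_le y
  have hK0 : (0 : ℝ) < modulus y := by exact_mod_cast hK
  have hKn' : (modulus y : ℝ) ≤ n := by exact_mod_cast hKn
  have h4 : (((modulus y * n + n ^ 2) / modulus y + 1 : ℕ) : ℝ) ≤
      3 * (n : ℝ) ^ 2 / modulus y := by
    have : (((modulus y * n + n ^ 2) / modulus y : ℕ) : ℝ) ≤
        ((modulus y * n + n ^ 2 : ℕ) : ℝ) / modulus y := Nat.cast_div_le
    push_cast at this ⊢
    rw [le_div_iff₀ hK0]
    have h5 := mul_le_mul_of_nonneg_right this hK0.le
    rw [div_mul_cancel₀ _ hK0.ne'] at h5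
    have hn1 : (1 : ℝ) ≤ n := by
      have : 1 ≤ n := le_trans hK hKn
      exact_mod_cast this
    nlinarith
  calc ((vals (modulus y) n).card : ℝ)
      ≤ ((((modulus y * n + n ^ 2) / modulus y + 1) * sq (modulus y) : ℕ) : ℝ) := by
        exact_mod_cast h1
    _ ≤ ((((modulus y * n + n ^ 2) / modulus y + 1) *
          ∏ p ∈ oddPrimes y, (p + 1) / 2 : ℕ) : ℝ) := by
        exact_mod_cast Nat.mul_le_mul_left _ h2
    _ = (((modulus y * n + n ^ 2) / modulus y + 1 : ℕ) : ℝ) *
          ((∏ p ∈ oddPrimes y, (p + 1) / 2 : ℕ) : ℝ) := by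
        rw [Nat.cast_mul]
    _ ≤ (3 * (n : ℝ) ^ 2 / modulus y) *
          ((modulus y : ℝ) * ((y : ℝ) + 1) * (1 / 2) ^ (oddPrimes y).card) := by
        apply mul_le_mul h4 h3 (by positivity) (by positivity)
    _ = 3 * (n : ℝ) ^ 2 * ((y : ℝ) + 1) * (1 / 2) ^ (oddPrimes y).card := by
        field_simp

/-! ### Geometry -/

/-- the point `(√T, T)` of the parabola -/
noncomputable def parab (T : ℝ) : Pt := !₂[Real.sqrt T, T]

/-- the point `(0, u)` of the `y`-axis -/
noncomputable def axis (u : ℝ) : Pt := !₂[0, u]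

lemma dist_parab_axis (T u : ℝ) (hT : 0 ≤ T) :
    dist (parab T) (axis u) = Real.sqrt (T + (T - u) ^ 2) := by
  rw [EuclideanSpace.dist_eq, Fin.sum_univ_two]
  simp [parab, axis, Real.dist_eq, hT]

lemma isCurve_parabola : IsCurve 2 {x : Pt | x 1 = x 0 ^ 2} := by
  refine ⟨MvPolynomial.X 1 - MvPolynomial.X 0 ^ 2, ?_, ?_, ?_⟩
  · intro h
    have := congrArg (MvPolynomial.eval ![(0 : ℝ), 1]) h
    simp at this
  · refine (MvPolynomial.totalDegree_sub _ _).trans (max_le ?_ ?_)
    · rw [MvPolynomial.totalDegree_X]; norm_num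
    · exact (MvPolynomial.totalDegree_pow _ _).trans (by rw [MvPolynomial.totalDegree_X])
  · ext x
    simp [sub_eq_zero]

lemma isCurve_axis : IsCurve 2 {x : Pt | x 0 = 0} := by
  refine ⟨MvPolynomial.X 0, MvPolynomial.X_ne_zero _, ?_, ?_⟩
  · rw [MvPolynomial.totalDegree_X]; norm_num
  · ext x
    simp

lemma admissible : Admissible {x : Pt | x 1 = x 0 ^ 2} {x : Pt | x 0 = 0} := by
  constructor
  · intro a b c a₂ b₂ c₂ hab _ h _
    exfalso
    by_cases hb : b = 0
    · subst hb
      have ha : a ≠ 0 := by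
        rintro rfl
        exact hab rfl
      have h0 : (!₂[c / a, 0] : Pt) ∈ line a 0 c := by
        simp [line]; field_simp
      have h1 : (!₂[c / a, 1] : Pt) ∈ line a 0 c := by
        simp [line]; field_simp
      have e0 := h h0
      have e1 := h h1
      simp at e0 e1
      rw [← e0] at e1
      simp at e1
    · have key : ∀ t : ℝ, (c - a * t) / b = t ^ 2 := by
        intro t
        have ht : (!₂[t, (c - a * t) / b] : Pt) ∈ line a b c := by
          simp [line]; field_simp; ring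
        have := h ht
        simpa using this
      have k0 := key 0
      have k1 := key 1
      have k2 := key (-1)
      rw [div_eq_iff hb] at k0 k1 k2
      apply hb
      linarith
  · rintro p r₁ r₂ h₁ - ⟨h, -⟩
    have e1 : (!₂[p 0, p 1 + r₁] : Pt) ∈ Metric.sphere p r₁ := by
      rw [Metric.mem_sphere, EuclideanSpace.dist_eq, Fin.sum_univ_two]
      simp [Real.sqrt_sq h₁.le]
    have e2 : (!₂[p 0, p 1 - r₁] : Pt) ∈ Metric.sphere p r₁ := by
      rw [Metric.mem_sphere, EuclideanSpace.dist_eq, Fin.sum_univ_two]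
      simp [Real.sqrt_sq h₁.le]
    have f1 := h e1
    have f2 := h e2
    simp at f1 f2
    linarith

open Classical in
/-- for every `K ≥ 1` and `n` there are `n` points on the parabola and `n` on the axis with at
most `#(vals K n)` distances -/
lemma exists_points (K n : ℕ) (hK : 0 < K) :
    ∃ P₁ P₂ : Finset Pt, (P₁ : Set Pt) ⊆ {x : Pt | x 1 = x 0 ^ 2} ∧
      (P₂ : Set Pt) ⊆ {x : Pt | x 0 = 0} ∧ P₁.card = n ∧ P₂.card = n ∧
      numDist P₁ P₂ ≤ (vals K n).card := by
  have hK0 : (0 : ℝ) < K := by exact_mod_cast hK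
  refine ⟨(Finset.Icc 1 n).image (fun i : ℕ => parab ((i : ℝ) / K)),
    (Finset.Icc 1 n).image (fun j : ℕ => axis ((j : ℝ) / K)), ?_, ?_, ?_, ?_, ?_⟩
  · intro x hx
    simp only [Finset.coe_image, Set.mem_image, Finset.mem_coe] at hx
    obtain ⟨i, _, rfl⟩ := hx
    have : (0 : ℝ) ≤ (i : ℝ) / K := by positivity
    rw [Set.mem_ofPred_eq]
    change (i : ℝ) / K = (Real.sqrt ((i : ℝ) / K)) ^ 2
    rw [Real.sq_sqrt this]
  · intro x hx
    simp only [Finset.coe_image, Set.mem_image, Finset.mem_coe] at hx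
    obtain ⟨i, _, rfl⟩ := hx
    simp [axis]
  · rw [Finset.card_image_of_injective, Nat.card_Icc, Nat.add_sub_cancel]
    intro i j hij
    have := congrFun (congrArg (fun x : Pt => (x : Fin 2 → ℝ)) hij) 1
    simp only [parab] at this
    have h2 : (i : ℝ) / K = j / K := by simpa using this
    have h3 : (i : ℝ) = j := by
      field_simp at h2
      exact h2
    exact_mod_cast h3
  · rw [Finset.card_image_of_injective, Nat.card_Icc, Nat.add_sub_cancel]
    intro i j hij
    have := congrFun (congrArg (fun x : Pt => (x : Fin 2 → ℝ)) hij) 1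
    simp only [axis] at this
    have h2 : (i : ℝ) / K = j / K := by simpa using this
    have h3 : (i : ℝ) = j := by
      field_simp at h2
      exact h2
    exact_mod_cast h3
  · unfold numDist
    have hsub : ((((Finset.Icc 1 n).image (fun i : ℕ => parab ((i : ℝ) / K))) ×ˢ
        ((Finset.Icc 1 n).image (fun j : ℕ => axis ((j : ℝ) / K)))).image
        (fun q => dist q.1 q.2)) ⊆
        (vals K n).image (fun v : ℕ => Real.sqrt (v : ℝ) / K) := by
      intro d hd
      simp only [Finset.mem_image, Finset.mem_product, Prod.exists] at hd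
      obtain ⟨x, z, ⟨⟨i, hi, rfl⟩, ⟨j, hj, rfl⟩⟩, rfl⟩ := hd
      rw [Finset.mem_image]
      refine ⟨K * i + (((i : ℤ) - j).natAbs) ^ 2, ?_, ?_⟩
      · rw [vals, Finset.mem_image]
        exact ⟨(i, j), Finset.mem_product.2 ⟨hi, hj⟩, rfl⟩
      · rw [dist_parab_axis _ _ (by positivity)]
        have hcast : (((K * i + (((i : ℤ) - j).natAbs) ^ 2 : ℕ)) : ℝ) =
            (K : ℝ) * i + ((i : ℝ) - j) ^ 2 := by
          push_cast
          have : ((((i : ℤ) - j).natAbs : ℕ) : ℝ) = |(i : ℝ) - j| := by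
            rw [Nat.cast_natAbs]; push_cast; rfl
          rw [this, sq_abs]
        rw [hcast]
        have h5 : (i : ℝ) / K + ((i : ℝ) / K - (j : ℝ) / K) ^ 2 =
            ((K : ℝ) * i + ((i : ℝ) - j) ^ 2) / (K : ℝ) ^ 2 := by
          field_simp
        rw [h5, Real.sqrt_div' _ (by positivity), Real.sqrt_sq hK0.le]
    exact (Finset.card_le_card hsub).trans Finset.card_image_le

/-! ### Asymptotics -/

open Filter

lemma eventually_real : ∀ᶠ x : ℝ in atTop,
    (Real.log 3 + Real.log (x + 1) + Real.log 2) * Real.log x + (x + 1) * (2 * Real.log 2) / 3 +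
      Real.log 2 * Real.log (x + 1) ≤ (Real.log 2) ^ 2 * x := by
  have h1 := (Real.isLittleO_pow_log_id_atTop (n := 2)).bound (c := 1 / 1000) (by norm_num)
  have h2 := (Real.isLittleO_pow_log_id_atTop (n := 1)).bound (c := 1 / 1000) (by norm_num)
  filter_upwards [h1, h2, eventually_ge_atTop (3000 : ℝ)] with x hx1 hx2 hx3
  have hx0 : 0 < x := by linarith
  have hl0 : 0 ≤ Real.log x := Real.log_nonneg (by linarith)
  simp only [id, Real.norm_eq_abs, pow_one] at hx1 hx2
  rw [abs_of_nonneg (by positivity), abs_of_pos hx0] at hx1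
  rw [abs_of_nonneg hl0, abs_of_pos hx0] at hx2
  have hl2 := Real.log_two_gt_d9
  have hl2' := Real.log_two_lt_d9
  have hx1' : Real.log (x + 1) ≤ Real.log x + Real.log 2 := by
    rw [← Real.log_mul hx0.ne' (by norm_num)]
    apply Real.log_le_log (by linarith)
    linarith
  have hl3 : Real.log 3 ≤ 1.4 := by
    have : Real.log 3 ≤ Real.log 4 := Real.log_le_log (by norm_num) (by norm_num)
    have h4 : Real.log 4 = 2 * Real.log 2 := by
      rw [show (4 : ℝ) = 2 ^ 2 by norm_num, Real.log_pow]; norm_num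
    linarith
  have hA : (Real.log 3 + Real.log (x + 1) + Real.log 2) * Real.log x ≤
      (Real.log x + 3) * Real.log x := by
    apply mul_le_mul_of_nonneg_right _ hl0
    linarith
  have hB : Real.log 2 * Real.log (x + 1) ≤ 1 * (Real.log x + 1) := by
    apply mul_le_mul (by linarith) (by linarith) (Real.log_nonneg (by linarith)) (by norm_num)
  have hC : (0.4804 : ℝ) * x ≤ (Real.log 2) ^ 2 * x := by
    apply mul_le_mul_of_nonneg_right _ hx0.le
    nlinarith
  nlinarith

lemma eventually_ineq : ∀ᶠ n : ℕ in atTop,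
    3 * (n : ℝ) ^ 2 * ((⌊Real.log n / Real.log 4⌋₊ : ℝ) + 1) *
      (1 / 2) ^ (oddPrimes ⌊Real.log n / Real.log 4⌋₊).card ≤
      (n : ℝ) ^ (2 - 1 / (3 * Real.log (Real.log n))) := by
  have h4 : Real.log 4 = 2 * Real.log 2 := by
    rw [show (4 : ℝ) = 2 ^ 2 by norm_num, Real.log_pow]; norm_num
  have hl2 := Real.log_two_gt_d9
  have hl2' := Real.log_two_lt_d9
  have h4pos : 0 < Real.log 4 := by rw [h4]; linarith
  have ht : Tendsto (fun n : ℕ => ⌊Real.log n / Real.log 4⌋₊) atTop atTop := by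
    apply tendsto_nat_floor_atTop.comp
    exact (Real.tendsto_log_atTop.comp tendsto_natCast_atTop_atTop).atTop_div_const h4pos
  have hev := (tendsto_natCast_atTop_atTop (R := ℝ)).eventually eventually_real
  have hev2 := ht.eventually (hev.and (eventually_ge_atTop 3))
  filter_upwards [hev2, eventually_ge_atTop 2] with n hn hn2
  obtain ⟨hmain, hy3⟩ := hn
  have hn0 : (0 : ℝ) < n := by
    have : 0 < n := by omega
    exact_mod_cast this
  have hL0 : 0 ≤ Real.log n := Real.log_natCast_nonneg n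
  have hfl : (⌊Real.log n / Real.log 4⌋₊ : ℝ) ≤ Real.log n / Real.log 4 :=
    Nat.floor_le (by positivity)
  have hfl' : Real.log n / Real.log 4 < (⌊Real.log n / Real.log 4⌋₊ : ℝ) + 1 :=
    Nat.lt_floor_add_one _
  generalize ⌊Real.log n / Real.log 4⌋₊ = y at hmain hy3 hfl hfl' ⊢
  have hy3' : (3 : ℝ) ≤ y := by exact_mod_cast hy3
  have hy0 : (0 : ℝ) < y := by linarith
  have hly : 0 < Real.log y := Real.log_pos (by linarith)
  have hyL : (y : ℝ) ≤ Real.log n := by
    rw [le_div_iff₀ h4pos] at hfl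
    nlinarith
  have hLy : Real.log n ≤ (y + 1) * (2 * Real.log 2) := by
    rw [div_lt_iff₀ h4pos] at hfl'
    rw [← h4]
    exact hfl'.le
  have hlL : Real.log y ≤ Real.log (Real.log n) := Real.log_le_log hy0 hyL
  have hlL0 : 0 < Real.log (Real.log n) := lt_of_lt_of_le hly hlL
  -- lower bound for the number of primes
  have hpi : (y : ℝ) * Real.log 2 - Real.log (y + 1) ≤
      ((oddPrimes y).card + 1 : ℝ) * Real.log y := by
    have h1 := Chebyshev.psi_ge y
    have h2 := Chebyshev.psi_le_primeCounting_mul_log y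
    have h3 : (Nat.primeCounting y : ℝ) ≤ ((oddPrimes y).card + 1 : ℝ) := by
      exact_mod_cast card_oddPrimes y
    have h5 := mul_le_mul_of_nonneg_right h3 hly.le
    linarith
  generalize (oddPrimes y).card = ω at hpi
  -- the exponent
  have hexp : Real.log 3 + Real.log (y + 1) + Real.log n / (3 * Real.log (Real.log n)) ≤
      ω * Real.log 2 := by
    have e1 : Real.log n / (3 * Real.log (Real.log n)) ≤
        (y + 1) * (2 * Real.log 2) / (3 * Real.log y) := by
      apply div_le_div₀ (by positivity) hLy (by positivity)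
      linarith
    have e2 : Real.log 3 + Real.log (y + 1) + (y + 1) * (2 * Real.log 2) / (3 * Real.log y) ≤
        ω * Real.log 2 := by
      rw [← mul_le_mul_iff_left₀ hly]
      have e3 : (Real.log 3 + Real.log (y + 1) +
          (y + 1) * (2 * Real.log 2) / (3 * Real.log y)) * Real.log y =
          (Real.log 3 + Real.log (y + 1)) * Real.log y + (y + 1) * (2 * Real.log 2) / 3 := by
        field_simp
      rw [e3]
      have e4 := mul_le_mul_of_nonneg_left hpi (show 0 ≤ Real.log 2 by linarith)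
      nlinarith
    linarith
  have hlogn : (n : ℝ) ^ (2 - 1 / (3 * Real.log (Real.log n))) =
      (n : ℝ) ^ 2 * Real.exp (- (Real.log n / (3 * Real.log (Real.log n)))) := by
    rw [Real.rpow_sub hn0, Real.exp_neg, ← div_eq_mul_inv]
    congr 1
    · norm_cast
    · rw [Real.rpow_def_of_pos hn0]
      congr 1
      ring
  have hhalf : ((1 : ℝ) / 2) ^ ω = Real.exp (- (ω * Real.log 2)) := by
    rw [Real.exp_neg, mul_comm, ← Real.rpow_def_of_pos (by norm_num), Real.rpow_natCast]
    rw [one_div, inv_pow]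
  have h3y : 3 * ((y : ℝ) + 1) = Real.exp (Real.log 3 + Real.log (y + 1)) := by
    rw [Real.exp_add, Real.exp_log (by norm_num), Real.exp_log (by linarith)]
  calc 3 * (n : ℝ) ^ 2 * ((y : ℝ) + 1) * (1 / 2) ^ ω
      = (n : ℝ) ^ 2 * ((3 * ((y : ℝ) + 1)) * (1 / 2) ^ ω) := by ring
    _ = (n : ℝ) ^ 2 * Real.exp (Real.log 3 + Real.log (y + 1) + - (ω * Real.log 2)) := by
        rw [h3y, hhalf, ← Real.exp_add]
    _ ≤ (n : ℝ) ^ 2 * Real.exp (- (Real.log n / (3 * Real.log (Real.log n)))) := by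
        apply mul_le_mul_of_nonneg_left _ (by positivity)
        apply Real.exp_le_exp.2
        linarith
    _ = _ := hlogn.symm

/-- **An improved upper bound for the number of distinct distances between two curves**: for all
large `n` some `n` points on the parabola `y = x²` and some `n` points on the line `x = 0` determine
at most `n ^ (2 - 1 / (3 log log n))` distinct distances; this pair of curves is admissible. -/
theorem result : ∃ n₀ : ℕ, ∀ n ≥ n₀, ∃ (C₁ C₂ : Set Pt) (P₁ P₂ : Finset Pt),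
    IsCurve 2 C₁ ∧ IsCurve 2 C₂ ∧ Admissible C₁ C₂ ∧
    (P₁ : Set Pt) ⊆ C₁ ∧ (P₂ : Set Pt) ⊆ C₂ ∧ P₁.card = n ∧ P₂.card = n ∧
    (numDist P₁ P₂ : ℝ) ≤ (n : ℝ) ^ (2 - 1 / (3 * Real.log (Real.log n))) := by
  obtain ⟨n₀, h⟩ := eventually_atTop.1 eventually_ineq
  refine ⟨max n₀ 1, fun n hn => ?_⟩
  have hn1 : 1 ≤ n := le_trans (le_max_right _ _) hn
  obtain ⟨P₁, P₂, h1, h2, h3, h4, h5⟩ :=
    exists_points (modulus ⌊Real.log n / Real.log 4⌋₊) n (modulus_pos _)
  refine ⟨_, _, P₁, P₂, isCurve_parabola, isCurve_axis, admissible, h1, h2, h3, h4, ?_⟩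
  have hpow : 4 ^ ⌊Real.log n / Real.log 4⌋₊ ≤ n := by
    have hn0 : (0 : ℝ) < n := by exact_mod_cast hn1
    have h4pos : 0 < Real.log 4 := Real.log_pos (by norm_num)
    have hfl : (⌊Real.log n / Real.log 4⌋₊ : ℝ) ≤ Real.log n / Real.log 4 :=
      Nat.floor_le (div_nonneg (Real.log_natCast_nonneg n) h4pos.le)
    rw [le_div_iff₀ h4pos] at hfl
    have : ((4 ^ ⌊Real.log n / Real.log 4⌋₊ : ℕ) : ℝ) ≤ n := by
      conv_rhs => rw [← Real.exp_log hn0]
      push_cast
      rw [← Real.rpow_natCast, Real.rpow_def_of_pos (by norm_num)]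
      apply Real.exp_le_exp.2
      linarith
    exact_mod_cast this
  calc (numDist P₁ P₂ : ℝ) ≤ ((vals (modulus ⌊Real.log n / Real.log 4⌋₊) n).card : ℝ) := by
        exact_mod_cast h5
    _ ≤ _ := card_vals_modulus _ n hpow
    _ ≤ _ := h n (le_trans (le_max_left _ _) hn)

end Pool.Agent.Results.MP_df1788_co.FewerDistances
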